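import Pool.Agent.Y770.FA.Geo

/-!
# The L-functions of almost all fibres of every algebraic family, in the critical strip

`K` is any number field and `(X_t)`, `t ∈ 𝔸^r`, any family of projective varieties over `K`: the
coefficients of the equations are polynomials in the parameters `t_1, …, t_r`.  Examples are all
hypersurfaces of given degree in `ℙⁿ`, all curves `y² = f(x)` of given genus, or the quadratic twists
of a fixed variety.  `L(H^i(X_t), s)` is an Euler product that converges for `Re s > i/2 + 1`, and no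
continuation is known in general.  If it continues and has neither zeros nor poles in
`Re s > (i + 1)/2` (apart from those coming from the part of the cohomology that does not depend on
`t`), then its partial Euler products over the primes of norm at most `x` are close to each other for
all `x` from a power of `log X` on.  The theorem proves this, up to a power of `X`, for almost all
integral points `t` of height `X`, for every family, in every degree `i`, and simultaneously for the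
twists by any `X^c` motives.
-/

set_option autoImplicit false

namespace Pool.Agent.Results.MP_039d94_nt.AlmostAllFibres

open NumberField IsDedekindDomain
open Pool.Agent.TH958.BV (IsFrobenius)

/-- The fibre `X_t` over the point `t` of a family over the affine space: `𝒳` is a set of polynomials in
the homogeneous coordinates `x_1, …, x_q` whose coefficients are polynomials in `t_1, …, t_r`. -/
def fibre {K : Type} [Field K] {q r : ℕ}
    (𝒳 : Set (MvPolynomial (Fin q) (MvPolynomial (Fin r) (𝓞 K)))) (t : Fin r → 𝓞 K) :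
    Set (MvPolynomial (Fin q) (𝓞 K)) :=
  MvPolynomial.map (MvPolynomial.eval t) '' 𝒳

open Classical in
/-- The `N` eigenvalues of Frobenius at `v` on `H^i(X_t)`, `X_t` a variety of dimension `d`, determined
by the numbers of points of `X_t` modulo `v`; they are put equal to `0` if there are no `N` numbers with
this property (bad reduction). -/
noncomputable def frob {K : Type} [Field K] [NumberField K] {q r : ℕ}
    (𝒳 : Set (MvPolynomial (Fin q) (MvPolynomial (Fin r) (𝓞 K)))) (d i N : ℕ) (t : Fin r → 𝓞 K)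
    (v : HeightOneSpectrum (𝓞 K)) : Fin N → ℂ :=
  if h : ∃ α : Fin N → ℂ, IsFrobenius (fibre 𝒳 t) d i v α then h.choose else 0

/-- The mean value of the traces of Frobenius at `v` over all points of the affine space with
coordinates in the residue field of `v`. -/
noncomputable def meanTrace {K : Type} [Field K] [NumberField K] {q r : ℕ}
    (𝒳 : Set (MvPolynomial (Fin q) (MvPolynomial (Fin r) (𝓞 K)))) (d i N : ℕ)
    (v : HeightOneSpectrum (𝓞 K)) : ℂ :=
  (∑ᶠ τ : Fin r → 𝓞 K ⧸ v.asIdeal, ∑ j, frob 𝒳 d i N (fun l => Quotient.out (τ l)) v j) /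
    (Ideal.absNorm v.asIdeal : ℂ) ^ r

/-- The partial Euler product `∏ ∏_{j,l} (1 - α_{v,j} γ_{v,l} Nv^{-s})⁻¹` over the primes `v` with
`Nv ≤ x`. -/
noncomputable def partialProduct {K : Type} [Field K] [NumberField K] {N M : ℕ}
    (α : HeightOneSpectrum (𝓞 K) → Fin N → ℂ) (γ : HeightOneSpectrum (𝓞 K) → Fin M → ℂ) (s : ℂ)
    (x : ℕ) : ℂ :=
  ∏ᶠ v ∈ {v : HeightOneSpectrum (𝓞 K) | Ideal.absNorm v.asIdeal ≤ x},
    ∏ j, ∏ l, (1 - α v j * γ v l * (Ideal.absNorm v.asIdeal : ℂ) ^ (-s))⁻¹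

/-- The Euler product `∏_v ∏_{j,l} (1 - α_{v,j} γ_{v,l} Nv^{-s})⁻¹` over all primes. -/
noncomputable def LFun {K : Type} [Field K] [NumberField K] {N M : ℕ}
    (α : HeightOneSpectrum (𝓞 K) → Fin N → ℂ) (γ : HeightOneSpectrum (𝓞 K) → Fin M → ℂ) (s : ℂ) : ℂ :=
  ∏' v : HeightOneSpectrum (𝓞 K),
    ∏ j, ∏ l, (1 - α v j * γ v l * (Ideal.absNorm v.asIdeal : ℂ) ^ (-s))⁻¹

/-- The product of the mean values, over the primes `v` with `Nv ≤ x`: for the mean values `μ_v` of the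
traces, `exp(∑ μ_v ∑_l γ_{v,l} Nv^{-s})`. -/
noncomputable def partialMean {K : Type} [Field K] [NumberField K] {M : ℕ}
    (μ : HeightOneSpectrum (𝓞 K) → ℂ) (γ : HeightOneSpectrum (𝓞 K) → Fin M → ℂ) (s : ℂ) (x : ℕ) : ℂ :=
  Complex.exp (∑ᶠ v ∈ {v : HeightOneSpectrum (𝓞 K) | Ideal.absNorm v.asIdeal ≤ x},
    μ v * (∑ l, γ v l) * (Ideal.absNorm v.asIdeal : ℂ) ^ (-s))

/-- The product of the mean values over all primes. -/
noncomputable def mean {K : Type} [Field K] [NumberField K] {M : ℕ}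
    (μ : HeightOneSpectrum (𝓞 K) → ℂ) (γ : HeightOneSpectrum (𝓞 K) → Fin M → ℂ) (s : ℂ) : ℂ :=
  Complex.exp (∑' v : HeightOneSpectrum (𝓞 K),
    μ v * (∑ l, γ v l) * (Ideal.absNorm v.asIdeal : ℂ) ^ (-s))

/-- The partial products `P_x(s)` and the full product `L(s)`, of weight `w`, are regular up to a power
of `X`:
* in the critical strip, `|P_x(s) / P_y(s) - 1| ≤ y^{-c}` for all `s` with `Re s ≥ (w + 1)/2 + δ`,
  `|Im s| ≤ X^c` and all `(log X)^{1/c} ≤ y ≤ x ≤ X^c`;
* at the edge, `|L(s) / P_y(s) - 1| ≤ η` for all `s` with `Re s ≥ w/2 + 1 + A / log X`, `|Im s| ≤ X^c`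
  and all `y ≥ (log X)^{1/c}`. -/
def Regular (w δ c η A : ℝ) (X : ℕ) (P : ℂ → ℕ → ℂ) (L : ℂ → ℂ) : Prop :=
  (∀ s : ℂ, (w + 1) / 2 + δ ≤ s.re → |s.im| ≤ (X : ℝ) ^ c → ∀ y x : ℕ,
    (Real.log X) ^ (1 / c) ≤ y → y ≤ x → (x : ℝ) ≤ (X : ℝ) ^ c →
      ‖P s x / P s y - 1‖ ≤ (y : ℝ) ^ (-c)) ∧
  ∀ s : ℂ, w / 2 + 1 + A / Real.log X ≤ s.re → |s.im| ≤ (X : ℝ) ^ c → ∀ y : ℕ,
    (Real.log X) ^ (1 / c) ≤ y → ‖L s / P s y - 1‖ ≤ η

/-- `α` is a fixed part of `H^i` of the family, with error term `B`: the numbers `α_{v,j}` are bounded by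
`Nv^{i/2}`, and the mean value of the traces differs from `∑_j α_{v,j}` by at most `B Nv^{(i-1)/2}`.
By Deligne's theorem (Weil II) this is the case for the eigenvalues of Frobenius on the part of
`H^i(X_t)` that is fixed by the geometric monodromy (filled up by zeros), for some `B`, if the generic
fibre of the family is smooth. -/
def IsFixedPart {K : Type} [Field K] [NumberField K] {q r N : ℕ}
    (𝒳 : Set (MvPolynomial (Fin q) (MvPolynomial (Fin r) (𝓞 K)))) (d i : ℕ) (B : ℝ)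
    (α : HeightOneSpectrum (𝓞 K) → Fin N → ℂ) : Prop :=
  ∀ v, (∀ j, ‖α v j‖ ≤ (Ideal.absNorm v.asIdeal : ℝ) ^ ((i : ℝ) / 2)) ∧
    ‖meanTrace 𝒳 d i N v - ∑ j, α v j‖ ≤ B * (Ideal.absNorm v.asIdeal : ℝ) ^ (((i : ℝ) - 1) / 2)

section proof

open Pool.Agent.Y770.FA (ee pt tr mm Loc loc_ee QQ QL)
open Pool.Agent.Y770.FM (FN mem_FN fc PP PL R1 R2)
open Pool.Agent.H921R2.TatePole (nm two_le_nm)

variable {K : Type} [Field K] [NumberField K] {q r N M : ℕ}

lemma set_eq (x : ℕ) : {v : HeightOneSpectrum (𝓞 K) | Ideal.absNorm v.asIdeal ≤ x} = (FN K x : Set _) := by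
  ext v
  rw [Finset.mem_coe, mem_FN]
  rfl

/-- the normalisation -/
noncomputable def nrm (i : ℕ) (α : HeightOneSpectrum (𝓞 K) → Fin N → ℂ) :
    HeightOneSpectrum (𝓞 K) → Fin N → ℂ := fun v j => α v j * (nm v : ℂ) ^ (-((i : ℂ) / 2))

lemma q_ne (v : HeightOneSpectrum (𝓞 K)) : (nm v : ℂ) ≠ 0 := by
  have := two_le_nm v
  exact_mod_cast (by omega : nm v ≠ 0)

lemma q_mul (v : HeightOneSpectrum (𝓞 K)) (i : ℕ) (s : ℂ) :
    (nm v : ℂ) ^ (-((i : ℂ) / 2)) * (nm v : ℂ) ^ (-(s - (i : ℂ) / 2)) = (nm v : ℂ) ^ (-s) := by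
  rw [← Complex.cpow_add _ _ (q_ne v)]
  congr 1
  ring

lemma factor_eq (i : ℕ) (α : HeightOneSpectrum (𝓞 K) → Fin N → ℂ)
    (γ : HeightOneSpectrum (𝓞 K) → Fin M → ℂ) (s : ℂ) (v : HeightOneSpectrum (𝓞 K)) :
    ∏ j, ∏ l, (1 - α v j * γ v l * (Ideal.absNorm v.asIdeal : ℂ) ^ (-s))⁻¹ =
      fc (nrm i α v) (γ v) v (s - (i : ℂ) / 2) := by
  unfold fc nrm
  refine Finset.prod_congr rfl fun j _ => Finset.prod_congr rfl fun l _ => ?_
  have h1 := q_mul v i s
  have h2 : α v j * (nm v : ℂ) ^ (-((i : ℂ) / 2)) * γ v l * (nm v : ℂ) ^ (-(s - (i : ℂ) / 2)) =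
      α v j * γ v l * (nm v : ℂ) ^ (-s) := by
    rw [← h1]; ring
  rw [h2]
  rfl

lemma partial_eq (i : ℕ) (α : HeightOneSpectrum (𝓞 K) → Fin N → ℂ)
    (γ : HeightOneSpectrum (𝓞 K) → Fin M → ℂ) (s : ℂ) (x : ℕ) :
    partialProduct α γ s x = PP (nrm i α) γ (s - (i : ℂ) / 2) x := by
  unfold partialProduct PP
  rw [set_eq, finprod_mem_coe_finset]
  exact Finset.prod_congr rfl fun v _ => factor_eq i α γ s v

lemma full_eq (i : ℕ) (α : HeightOneSpectrum (𝓞 K) → Fin N → ℂ)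
    (γ : HeightOneSpectrum (𝓞 K) → Fin M → ℂ) (s : ℂ) :
    LFun α γ s = PL (nrm i α) γ (s - (i : ℂ) / 2) := by
  unfold LFun PL
  exact tprod_congr fun v => factor_eq i α γ s v

lemma nrm_frob (𝒳 : Set (MvPolynomial (Fin q) (MvPolynomial (Fin r) (𝓞 K)))) (d i N : ℕ)
    (t : Fin r → 𝓞 K) : nrm i (frob 𝒳 d i N t) = ee 𝒳 d i N t := rfl

lemma mean_eq (𝒳 : Set (MvPolynomial (Fin q) (MvPolynomial (Fin r) (𝓞 K)))) (d i N : ℕ)
    (v : HeightOneSpectrum (𝓞 K)) :
    mm (ee 𝒳 d i N) v = meanTrace 𝒳 d i N v * (nm v : ℂ) ^ (-((i : ℂ) / 2)) := by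
  have hfin := Pool.Agent.Y770.FM.finite_quot v
  unfold mm meanTrace
  rw [div_mul_eq_mul_div, finsum_mul' _ _ (Set.toFinite _)]
  congr 1
  refine finsum_congr fun τ => ?_
  unfold tr
  rw [Finset.sum_mul]
  rfl

lemma mean_term (𝒳 : Set (MvPolynomial (Fin q) (MvPolynomial (Fin r) (𝓞 K)))) (d i N : ℕ)
    (γ : HeightOneSpectrum (𝓞 K) → Fin M → ℂ) (s : ℂ) (v : HeightOneSpectrum (𝓞 K)) :
    meanTrace 𝒳 d i N v * (∑ l, γ v l) * (Ideal.absNorm v.asIdeal : ℂ) ^ (-s) =
      mm (ee 𝒳 d i N) v * (∑ l, γ v l) * (nm v : ℂ) ^ (-(s - (i : ℂ) / 2)) := by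
  rw [mean_eq]
  have h1 := q_mul v i s
  have h2 : (Ideal.absNorm v.asIdeal : ℂ) = (nm v : ℂ) := rfl
  rw [h2, ← h1]
  ring

lemma QQ_eq (𝒳 : Set (MvPolynomial (Fin q) (MvPolynomial (Fin r) (𝓞 K)))) (d i N : ℕ)
    (γ : HeightOneSpectrum (𝓞 K) → Fin M → ℂ) (t : Fin r → 𝓞 K) (s : ℂ) (x : ℕ) :
    partialProduct (frob 𝒳 d i N t) γ s x / partialMean (meanTrace 𝒳 d i N) γ s x =
      QQ (ee 𝒳 d i N) γ t (s - (i : ℂ) / 2) x := by
  unfold QQ partialMean
  rw [partial_eq i, nrm_frob, set_eq, finsum_mem_coe_finset, Complex.exp_neg, div_eq_mul_inv]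
  congr 3
  exact Finset.sum_congr rfl fun v _ => mean_term 𝒳 d i N γ s v

lemma QL_eq (𝒳 : Set (MvPolynomial (Fin q) (MvPolynomial (Fin r) (𝓞 K)))) (d i N : ℕ)
    (γ : HeightOneSpectrum (𝓞 K) → Fin M → ℂ) (t : Fin r → 𝓞 K) (s : ℂ) :
    LFun (frob 𝒳 d i N t) γ s / mean (meanTrace 𝒳 d i N) γ s =
      QL (ee 𝒳 d i N) γ t (s - (i : ℂ) / 2) := by
  unfold QL mean
  rw [full_eq i, nrm_frob, Complex.exp_neg, div_eq_mul_inv]
  congr 3
  exact tsum_congr fun v => mean_term 𝒳 d i N γ s v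

lemma regular_of {i : ℕ} {δ c η A : ℝ} {X : ℕ} {P P' : ℂ → ℕ → ℂ} {L L' : ℂ → ℂ}
    (hP : ∀ s x, P s x = P' (s - (i : ℂ) / 2) x) (hL : ∀ s, L s = L' (s - (i : ℂ) / 2))
    (h1 : R1 δ c X P') (h2 : R2 η A c X L' P') : Regular i δ c η A X P L := by
  have hre : ∀ s : ℂ, (s - (i : ℂ) / 2).re = s.re - (i : ℝ) / 2 := fun s => by simp
  have him : ∀ s : ℂ, (s - (i : ℂ) / 2).im = s.im := fun s => by simp
  constructor
  · intro s hs hs2 y x hy hyx hx
    rw [hP, hP]
    exact h1 _ (by rw [hre]; linarith) (by rw [him]; exact hs2) y x hy hyx hx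
  · intro s hs hs2 y hy
    rw [hP, hL]
    exact h2 _ (by rw [hre]; linarith) (by rw [him]; exact hs2) y hy

end proof

/-- **Almost all fibres of every algebraic family.**  Let `δ > 0`.  There is `c > 0` such that for every
number field `K`, all `r`, `N`, `M` and all `η > 0`, `B ≥ 0` there are `A` and `X₀` with the following
property.  Let `X ≥ X₀`, let `(X_t)` be a family of projective varieties of dimension `d` over `K` over
the affine space `𝔸^r`, in any number of coordinates and of any degree, `i ≤ 2d`, `b ∈ 𝓞_K^r`, and `γ_k`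
at most `X^c` motives of rank `M` over `K` (or systems of numbers `γ_{v,l}` of absolute value at most
`1`).
Then for all integral points `n` with `|n_l| ≤ X`, with at most `X^{r-c}` exceptions, the following
holds for `t = b + n` and all `k`.
1. The Euler products of `L(H^i(X_t) ⊗ γ_k, s)`, divided by those of the mean values, are regular.
2. The Euler products of `L(H^i(X_t) ⊗ γ_k, s)`, divided by those of `L(α ⊗ γ_k, s)`, are regular, for
   every fixed part `α` of the family with error term `B`.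
3. The quotient of the Euler products of `L(H^i(X_t) ⊗ γ_k, s)` and `L(H^i(X_{t'}) ⊗ γ_k, s)` is regular
   for all `t' = b + n'` that are not exceptional either.

Here `H^i(X_t)` stands for the `N` eigenvalues of Frobenius on `H^i(X_t)`. -/
theorem result (δ : ℝ) (_ : 0 < δ) : ∃ c : ℝ, 0 < c ∧ ∀ (K : Type) [Field K] [NumberField K]
    (r N M : ℕ) (η B : ℝ), 0 < η → 0 ≤ B → ∃ A : ℝ, ∃ X₀ : ℕ, ∀ X : ℕ, X₀ ≤ X →
      ∀ (q d i : ℕ), i ≤ 2 * d → ∀ (𝒳 : Set (MvPolynomial (Fin q) (MvPolynomial (Fin r) (𝓞 K))))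
        (b : Fin r → 𝓞 K) (m : ℕ), (m : ℝ) ≤ (X : ℝ) ^ c →
      ∀ γ : Fin m → HeightOneSpectrum (𝓞 K) → Fin M → ℂ, (∀ k v l, ‖γ k v l‖ ≤ 1) →
      ∃ E : Finset (Fin r → ℤ), (E.card : ℝ) ≤ (X : ℝ) ^ (r - c) ∧
        ∀ n : Fin r → ℤ, (∀ l, |n l| ≤ X) → n ∉ E → ∀ k,
          Regular i δ c η A X
            (fun s x => partialProduct (frob 𝒳 d i N fun l => b l + n l) (γ k) s x /
              partialMean (meanTrace 𝒳 d i N) (γ k) s x)
            (fun s => LFun (frob 𝒳 d i N fun l => b l + n l) (γ k) s /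
              mean (meanTrace 𝒳 d i N) (γ k) s) ∧
          (∀ α : HeightOneSpectrum (𝓞 K) → Fin N → ℂ, IsFixedPart 𝒳 d i B α →
            Regular i δ c η A X
              (fun s x => partialProduct (frob 𝒳 d i N fun l => b l + n l) (γ k) s x /
                partialProduct α (γ k) s x)
              (fun s => LFun (frob 𝒳 d i N fun l => b l + n l) (γ k) s / LFun α (γ k) s)) ∧
          ∀ n' : Fin r → ℤ, (∀ l, |n' l| ≤ X) → n' ∉ E →
            Regular i δ c η A X
              (fun s x => partialProduct (frob 𝒳 d i N fun l => b l + n l) (γ k) s x /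
                partialProduct (frob 𝒳 d i N fun l => b l + n' l) (γ k) s x)
              (fun s => LFun (frob 𝒳 d i N fun l => b l + n l) (γ k) s /
                LFun (frob 𝒳 d i N fun l => b l + n' l) (γ k) s) := by
  rename_i hδ
  refine ⟨min δ (1 / 2) / 4000, by positivity, fun K _ _ r N M η B hη hB => ?_⟩
  obtain ⟨c, hc, hc0, h⟩ := Pool.Agent.Y770.FA.final K r N M δ hδ
  obtain ⟨A, X₀, h⟩ := h η B hη hB
  rw [← hc]
  refine ⟨A, X₀, fun X hX q d i _ 𝒳 b m hm γ hγ => ?_⟩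
  obtain ⟨E, hE, h⟩ := h X hX (Pool.Agent.Y770.FA.ee 𝒳 d i N)
    (Pool.Agent.Y770.FA.loc_ee 𝒳 d i N) b m hm γ hγ
  refine ⟨E, hE, fun n hn hnE k => ?_⟩
  obtain ⟨⟨h1, h2⟩, h3, h4⟩ := h n hn hnE k
  refine ⟨regular_of (fun s x => QQ_eq 𝒳 d i N (γ k) _ s x) (fun s => QL_eq 𝒳 d i N (γ k) _ s) h1 h2,
    fun α hα => ?_, fun n' hn' hnE' => ?_⟩
  · obtain ⟨h5, h6⟩ := h3 (nrm i α) (fun v j => Pool.Agent.Y770.FA.norm_mul_pow_le ((hα v).1 j))
      (fun v => by
        have h7 := (hα v).2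
        have h8 : Pool.Agent.Y770.FA.mm (Pool.Agent.Y770.FA.ee 𝒳 d i N) v - ∑ j, nrm i α v j =
            (meanTrace 𝒳 d i N v - ∑ j, α v j) *
              (Pool.Agent.H921R2.TatePole.nm v : ℂ) ^ (-((i : ℂ) / 2)) := by
          rw [mean_eq]
          unfold nrm
          rw [← Finset.sum_mul]
          ring
        rw [h8, norm_mul, Pool.Agent.Y770.FA.norm_pow_i]
        refine (mul_le_mul_of_nonneg_right h7 (by positivity)).trans (le_of_eq ?_)
        have h9 := Pool.Agent.Y770.FM.nm_pos' v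
        rw [mul_assoc]
        congr 1
        show (Pool.Agent.H921R2.TatePole.nm v : ℝ) ^ (((i : ℝ) - 1) / 2) *
          (Pool.Agent.H921R2.TatePole.nm v : ℝ) ^ (-((i : ℝ) / 2)) = _
        rw [← Real.rpow_add h9]
        congr 1
        ring)
    exact regular_of (fun s x => by rw [partial_eq i, partial_eq i]; rfl)
      (fun s => by rw [full_eq i, full_eq i]; rfl) h5 h6
  · obtain ⟨h5, h6⟩ := h4 n' hn' hnE'
    exact regular_of (fun s x => by rw [partial_eq i, partial_eq i]; rfl)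
      (fun s => by rw [full_eq i, full_eq i]; rfl) h5 h6

end Pool.Agent.Results.MP_039d94_nt.AlmostAllFibres
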