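import Pool.Agent.Y770.SC.Rep2

/-!
# Singularities at the edge at every scale, for all varieties, all twists and all heights

`X` is a smooth projective variety over a number field `K`, for example over `K = ℚ`.  Where
`L(Hⁱ(X) ⊗ χ, s)` has a zero or a pole of order `m` at the point `s_τ = i/2 + 1 + iτ` of the edge of
absolute convergence, `ε (L'/L)(s_τ + ε)` tends to `m`.  The theorem bounds the sum of the squares of
`ε (L'/L)(s_τ + ε)` over all Dirichlet characters `χ` and all heights `τ`, at every single scale `ε`,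
by the value at the same scale of the corresponding quantity for the pole at `s = 1` of
`L(V ⊗ V^∨, s)`, where `V` is the representation of `Gal(ℚ̄/ℚ)` induced from `Hⁱ(X)`, with constants
that depend only on the dimension of `V`, and without any continuation.

`IsFrobenius` and `edgePoint` are defined in `Pool/Agent/TH958/BV/Defs.lean`.
-/

set_option autoImplicit false

namespace Pool.Agent.Results.MP_039d94_nt.EdgeSingularities

open NumberField IsDedekindDomain Pool.Agent.TH958.BV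

open Classical in
/-- `L_S(Hⁱ(X) ⊗ χ, s)`, the product over the primes `v ∉ S` of `K` of the Euler factors
`∏_j (1 - χ(Nv) α_{v,j} Nv^{-s})⁻¹`, where `α_{v,j}` are the eigenvalues of Frobenius on `Hⁱ(X)`. -/
noncomputable def twistL {K : Type} [Field K] [NumberField K] {N q : ℕ}
    (S : Set (HeightOneSpectrum (𝓞 K))) (α : HeightOneSpectrum (𝓞 K) → Fin N → ℂ)
    (χ : DirichletCharacter ℂ q) (s : ℂ) : ℂ :=
  ∏' v : HeightOneSpectrum (𝓞 K), if v ∈ S then 1 else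
    ∏ j, (1 - χ ((Ideal.absNorm v.asIdeal : ℕ) : ZMod q) * α v j *
      (Ideal.absNorm v.asIdeal : ℂ) ^ (-s))⁻¹

open Classical in
/-- The trace of the `m`-th power of the Frobenius at `p` on the representation `V` of `Gal(ℚ̄/ℚ)`
induced from `Hⁱ(X)`, divided by `p^{mi/2}`: the sum over the divisors `f` of `m` and the primes
`v ∉ S` of `K` with `Nv = p^f` of `f ∑_j α_{v,j}^{m/f}`, divided by `p^{mi/2}`. -/
noncomputable def traceInd {K : Type} [Field K] [NumberField K] {N : ℕ} (i : ℕ)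
    (S : Set (HeightOneSpectrum (𝓞 K))) (α : HeightOneSpectrum (𝓞 K) → Fin N → ℂ)
    (p : Nat.Primes) (m : ℕ) : ℂ :=
  (∑' v : HeightOneSpectrum (𝓞 K), ∑ f ∈ m.divisors,
    if v ∉ S ∧ Ideal.absNorm v.asIdeal = (p : ℕ) ^ f then (f : ℂ) * ∑ j, α v j ^ (m / f) else 0) /
    ((((p : ℕ) : ℝ) ^ ((m : ℝ) * ((i : ℝ) / 2)) : ℝ) : ℂ)

/-- `-ε (L'/L)(V ⊗ V^∨, 1 + ε)`, the Euler factors at the primes of `S` removed: the sum over all primes
`p` and `m ≥ 1` of `ε |traceInd(p, m)|² (log p) p^{-m(1+ε)}`. -/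
noncomputable def poleStrength {K : Type} [Field K] [NumberField K] {N : ℕ} (i : ℕ)
    (S : Set (HeightOneSpectrum (𝓞 K))) (α : HeightOneSpectrum (𝓞 K) → Fin N → ℂ) (ε : ℝ) : ℝ :=
  ε * ∑' (x : Nat.Primes × ℕ), ‖traceInd i S α x.1 (x.2 + 1)‖ ^ 2 * Real.log (x.1 : ℕ) *
    ((x.1 : ℕ) : ℝ) ^ (-(((x.2 + 1 : ℕ) : ℝ) * (1 + ε)))

/-- The quotient `χ / ψ` of two Dirichlet characters, as a character modulo `q r`. -/
noncomputable def quotient {q r : ℕ} (χ : DirichletCharacter ℂ q) (ψ : DirichletCharacter ℂ r) :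
    DirichletCharacter ℂ (q * r) :=
  DirichletCharacter.changeLevel (dvd_mul_right q r) χ *
    (DirichletCharacter.changeLevel (dvd_mul_left r q) ψ)⁻¹

/-- The pairs `(χ, τ)` and `(ψ, υ)` are separated at the scale `h`: either `χ / ψ` is not real, or it
is principal and `|τ - υ| ≥ h`. -/
def Separated {q r : ℕ} (h : ℝ) (χ : DirichletCharacter ℂ q) (τ : ℝ)
    (ψ : DirichletCharacter ℂ r) (υ : ℝ) : Prop :=
  quotient χ ψ ^ 2 ≠ 1 ∨ (quotient χ ψ = 1 ∧ h ≤ |τ - υ|)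

/-- **Singularities at every scale.**  For every `M` and `η > 0` there are `A, c, ε₀ > 0` with the
following property.  Let `X` be a variety over a number field `K`, `N` the dimension of `Hⁱ(X)`,
`N [K : ℚ] ≤ M`, `S` a set of primes of `K`, and `α_v` the eigenvalues of Frobenius on `Hⁱ(X)` at the
primes `v ∉ S`.  Let `0 < ε < ε₀`.  Then `poleStrength i S α ε ≤ M² + η`.  Let `(χ_k, τ_k)`,
`k = 1, …, m`, be Dirichlet characters modulo `q_k ≤ exp(c / ε)` and real numbers with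
`|τ_k| ≤ exp(c / ε)`, any two of them separated at the scale `A ε`, such that
`|ε (L_S'/L_S)(Hⁱ(X) ⊗ χ_k, i/2 + 1 + iτ_k + ε)| ≥ η`.  Then the sum over `k` of the squares of
these numbers is at most `poleStrength i S α ε + η`. -/
theorem result (M : ℕ) (η : ℝ) (hη : 0 < η) : ∃ A c ε₀ : ℝ, 0 < A ∧ 0 < c ∧ 0 < ε₀ ∧
    ∀ (K : Type) [Field K] [NumberField K] (n : ℕ) (X : Set (MvPolynomial (Fin n) (𝓞 K)))
      (d i N : ℕ) (_ : N * Module.finrank ℚ K ≤ M) (S : Set (HeightOneSpectrum (𝓞 K)))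
      (α : HeightOneSpectrum (𝓞 K) → Fin N → ℂ) (_ : ∀ v, v ∉ S → IsFrobenius X d i v (α v))
      (ε : ℝ) (_ : 0 < ε) (_ : ε < ε₀),
      poleStrength i S α ε ≤ (M : ℝ) ^ 2 + η ∧
      ∀ (m : ℕ) (q : Fin m → ℕ) (_ : ∀ k, q k ≠ 0) (χ : ∀ k, DirichletCharacter ℂ (q k))
        (τ : Fin m → ℝ),
        (∀ k, (q k : ℝ) ≤ Real.exp (c / ε) ∧ |τ k| ≤ Real.exp (c / ε)) →
        (∀ k l, k ≠ l → Separated (A * ε) (χ k) (τ k) (χ l) (τ l)) →
        (∀ k, η ≤ ‖ε * logDeriv (twistL S α (χ k)) (edgePoint i (τ k) + ε)‖) →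
        ∑ k, ‖ε * logDeriv (twistL S α (χ k)) (edgePoint i (τ k) + ε)‖ ^ 2 ≤
          poleStrength i S α ε + η := by
  obtain ⟨A, c, ε₀, hA, hc, hε₀, H⟩ := Pool.Agent.Y770.SC.scale2 M η (Nat.cast_nonneg M) hη
  refine ⟨A, c, ε₀, hA, hc, hε₀, ?_⟩
  intro K _ _ n X d i N hN S α hα ε hε hε1
  have hα' : ∀ v, v ∉ S → ∀ j, ‖α v j‖ = (Pool.Agent.TH339.MP.nm v : ℝ) ^ ((i : ℝ) / 2) := by
    intro v hv j
    obtain ⟨β, h1, h2, h3⟩ := hα v hv
    refine h2 i (α v j) ?_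
    rw [h1]
    exact Multiset.mem_map_of_mem _ (Finset.mem_univ_val j)
  have hP : Pool.Agent.Y770.SC.PP2 (Pool.Agent.Y770.SC.cof (Pool.Agent.TH339.MP.bb
      (Pool.Agent.Y770.SC.nb i S α))) ε = poleStrength i S α ε :=
    Pool.Agent.Y770.SC.moment_eq i S α ε
  have H1 := H (Pool.Agent.Y770.SC.cof (Pool.Agent.TH339.MP.bb
      (Pool.Agent.Y770.SC.nb i S α))) (fun n => by
    refine (Pool.Agent.Y770.SC.norm_cof (Pool.Agent.TH339.MP.norm_bb
      (Pool.Agent.Y770.SC.norm_nb hα')) n).trans ?_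
    refine mul_le_mul_of_nonneg_right ?_ ArithmeticFunction.vonMangoldt_nonneg
    rw [mul_comm]
    exact_mod_cast hN) ε hε hε1
  rw [hP] at H1
  refine ⟨H1.1, ?_⟩
  intro m q hq χ τ hbd hsep hbig
  have hL : ∀ k, ‖ε * logDeriv (twistL S α (χ k)) (edgePoint i (τ k) + ε)‖ =
      ‖Pool.Agent.Y770.SC.AA (Pool.Agent.Y770.SC.cof (Pool.Agent.TH339.MP.bb
        (Pool.Agent.Y770.SC.nb i S α))) ε (χ k) (τ k)‖ := by
    intro k
    have h1 := Pool.Agent.Y770.SC.logDeriv_LT (χ k) hα' hε (τ k)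
    have h2 : Pool.Agent.Y770.SC.LT (χ k) S α = twistL S α (χ k) := rfl
    rw [h2] at h1
    rw [h1, norm_neg]
  simp only [hL] at hbig ⊢
  exact H1.2 (Fin m) Finset.univ q (fun k => ⟨hq k⟩) χ τ
    (fun k _ => hbd k) (fun k _ l _ hkl => hsep k l hkl) (fun k _ => hbig k)

end Pool.Agent.Results.MP_039d94_nt.EdgeSingularities
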