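import Pool.Agent.Y149.LN.Main

/-!
# Products with elliptic curves: the poles on the edge line

`Y` is a smooth projective variety of dimension `d` over a number field `K` (for example `K = ℚ`) with
Betti numbers `N 0, N 1, …`, and `E` runs through modular elliptic curves over `ℚ` (by the modularity
theorem all elliptic curves over `ℚ` are modular), no two of them isogenous.  By Künneth, for `j ≥ 1`,

`L(H^{j+1}(Y × E), s) = L(H^{j+1}(Y), s) L(H^{j-1}(Y), s - 1) L(H^j(Y) ⊗ H¹(E), s)`.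

The theorem is about the poles and zeros on the whole line `Re s = (j + 1)/2 + 1`, the boundary of the
half plane of absolute convergence, and about all the curves `E` together: the sum of the squares of the
orders of the poles of `L(H^j(Y) ⊗ H¹(E), s)`, over all `E` and all points of the line, is at most
`[K : ℚ]` times the order of the pole of `L(H^j(Y) ⊗ H^j(Y), s)` at `s = j + 1`, and the same holds for the
zeros.  So, if the poles of `L(H^{j+1}(Y), s)` and `L(H^{j-1}(Y), s)` are as predicted, then, for all but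
at most `[K : ℚ] N_j²` isogeny classes, the poles of `L(H^{j+1}(Y × E), s)` on the line are as predicted.
The definitions are in `Pool.Agent.Y149.LN.Defs`, `Pool.Agent.Y722.EP.Defs` and
`Pool.Agent.W353.EH.Defs`.
-/

set_option autoImplicit false

namespace Pool.Agent.Results.MP_039d94_nt.EllipticProductsLine

open NumberField IsDedekindDomain Filter Topology Polynomial
open Pool.Agent.W353.EF (LFun)
open Pool.Agent.W353.EH (edgePoint size HasOrder)
open Pool.Agent.Y722.EP (IsModular NotIsogenous)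
open Pool.Agent.Y149.LN (IsEuler IsProduct IsSquare)

/-- `log |L(H^j(Y) ⊗ H¹(E_i), s)| / log(1/ε)` at `s = (j + 1)/2 + 1 + iτ + ε` for `x = (i, τ)`: the
difference of the sizes of `L(H^{j+1}(Y × E_i), s)`, `L(H^{j+1}(Y), s)` and `L(H^{j-1}(Y), s - 1)`. -/
noncomputable def newSize {K : Type} [Field K] [NumberField K] {ι : Type} (j : ℕ)
    (B₀ B₁ : HeightOneSpectrum (𝓞 K) → ℂ[X]) (B : ι → HeightOneSpectrum (𝓞 K) → ℂ[X])
    (x : ι × ℝ) (ε : ℝ) : ℝ :=
  size (j + 1) x.2 (B x.1) ε - size (j + 1) x.2 B₀ ε - size (j - 1) x.2 B₁ ε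

/-- **Products with elliptic curves over `ℚ`, on the whole edge line.**  Let `Y` be a projective
variety of dimension `d` over a number field `K`, given by the equations `X`, with Betti numbers
`N 0, N 1, …`, let `1 ≤ j ≤ 2d - 1`, and let `E_i : y² = x³ + a_i x + b_i`, `i ∈ ι`, be (finitely or
infinitely many) modular elliptic curves over `ℚ`, pairwise not isogenous.  Let `x(ε)`, `x = (i, τ)`, be
`log |L(H^j(Y) ⊗ H¹(E_i), (j + 1)/2 + 1 + iτ + ε)| / log(1/ε)`, and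
`y(ε) = log |L(H^j(Y) ⊗ H^j(Y), j + 1 + ε)| / log(1/ε)`.
1. (No continuation is assumed.)  For every finite set `S` of pairs `(i, τ)`, `η > 0` and all small
`ε > 0`, the `L`-functions are not zero at these points, the sum of `x(ε)²` over the `x ∈ S` with
`x(ε) > 0` is at most `[K : ℚ] y(ε) + η`, the same holds for the sum over the `x ∈ S` with `x(ε) < 0`, and
`y(ε) ≤ N_j² + η`.
2. Let `T` be a set of pairs, finite or infinite (for instance all pairs), such that for `(i, τ) ∈ T` the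
functions `L(H^{j+1}(Y × E_i), s)`, `L(H^{j+1}(Y), s)` and `L(H^{j-1}(Y), s - 1)` have meromorphic
continuations to neighbourhoods of `(j + 1)/2 + 1 + iτ`, of orders `m (i, τ)`, `m₀ τ` and `m₁ τ`.  Then
`m (i, τ) = m₀ τ + m₁ τ` for all but finitely many `(i, τ) ∈ T`, and
(a) for all but at most `[K : ℚ] N_j²` of the curves `E_i`, `m (i, τ) ≥ m₀ τ + m₁ τ` on the whole line
(`(i, τ) ∈ T`): there are no poles beyond those of `L(H^{j+1}(Y), s) L(H^{j-1}(Y), s - 1)`;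
(b) for all but at most `[K : ℚ] N_j²` of the curves, `m (i, τ) ≤ m₀ τ + m₁ τ` on the whole line: there
are no further zeros;
(c) if `L(H^j(Y) ⊗ H^j(Y), s)` has a meromorphic continuation to a neighbourhood of `s = j + 1`, with a
pole of order `r`, then the sums of the squares of `m₀ τ + m₁ τ - m (i, τ)`, over all `(i, τ) ∈ T` where
it is positive and over those where it is negative, are at most `[K : ℚ] r`. -/
theorem result (K : Type) [Field K] [NumberField K] (n d j : ℕ) (N : ℕ → ℕ) (hj : 1 ≤ j)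
    (hjd : j + 1 ≤ 2 * d) (X : Set (MvPolynomial (Fin n) (𝓞 K))) (ι : Type) (a b : ι → ℤ)
    (hΔ : ∀ i, 4 * a i ^ 3 + 27 * b i ^ 2 ≠ 0) (hmod : ∀ i, IsModular (a i) (b i))
    (hne : ∀ i i', i ≠ i' → NotIsogenous (a i) (b i) (a i') (b i'))
    (B₀ B₁ B₂ : HeightOneSpectrum (𝓞 K) → ℂ[X]) (h₀ : IsEuler X d (j + 1) (N (j + 1)) B₀)
    (h₁ : IsEuler X d (j - 1) (N (j - 1)) B₁) (h₂ : IsSquare X d j (N j) B₂)
    (B : ι → HeightOneSpectrum (𝓞 K) → ℂ[X])
    (hB : ∀ i, IsProduct X d N j (a i) (b i) (B i)) :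
    (∀ (S : Finset (ι × ℝ)) (η : ℝ), 0 < η → ∀ᶠ ε : ℝ in 𝓝[>] 0,
      (∀ x ∈ S, LFun (B x.1) (edgePoint (j + 1) x.2 + ε) ≠ 0 ∧
        LFun B₀ (edgePoint (j + 1) x.2 + ε) ≠ 0 ∧ LFun B₁ (edgePoint (j - 1) x.2 + ε) ≠ 0) ∧
      LFun B₂ (edgePoint (2 * j) 0 + ε) ≠ 0 ∧
      ∑ x ∈ S, (max (newSize j B₀ B₁ B x ε) 0) ^ 2 ≤
        Module.finrank ℚ K * size (2 * j) 0 B₂ ε + η ∧
      ∑ x ∈ S, (max (-newSize j B₀ B₁ B x ε) 0) ^ 2 ≤
        Module.finrank ℚ K * size (2 * j) 0 B₂ ε + η ∧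
      size (2 * j) 0 B₂ ε ≤ (N j : ℝ) ^ 2 + η) ∧
    ∀ (T : Set (ι × ℝ)) (m₀ m₁ : ℝ → ℤ) (m : ι × ℝ → ℤ),
      (∀ x ∈ T, HasOrder (j + 1) x.2 B₀ (m₀ x.2)) →
      (∀ x ∈ T, HasOrder (j - 1) x.2 B₁ (m₁ x.2)) →
      (∀ x ∈ T, HasOrder (j + 1) x.2 (B x.1) (m x)) →
      {x ∈ T | m x ≠ m₀ x.2 + m₁ x.2}.Finite ∧
      {i | ∃ τ, (i, τ) ∈ T ∧ m (i, τ) < m₀ τ + m₁ τ}.ncard ≤ Module.finrank ℚ K * N j ^ 2 ∧
      {i | ∃ τ, (i, τ) ∈ T ∧ m₀ τ + m₁ τ < m (i, τ)}.ncard ≤ Module.finrank ℚ K * N j ^ 2 ∧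
      ∀ r : ℕ, HasOrder (2 * j) 0 B₂ (-r) → ∀ S : Finset (ι × ℝ), (∀ x ∈ S, x ∈ T) →
        ∑ x ∈ S, (max (m₀ x.2 + m₁ x.2 - m x) 0) ^ 2 ≤ (Module.finrank ℚ K * r : ℤ) ∧
        ∑ x ∈ S, (max (m x - m₀ x.2 - m₁ x.2) 0) ^ 2 ≤ (Module.finrank ℚ K * r : ℤ) := by
  classical
  refine ⟨fun S η hη => ?_, fun T m₀ m₁ m hm₀ hm₁ hm => ?_⟩
  · obtain ⟨g1, g2⟩ := Pool.Agent.Y149.LN.main_size hj hjd hΔ hmod hne h₀ h₁ h₂ hB S hη
    have g3 : ∀ᶠ ε : ℝ in 𝓝[>] 0, ∀ x ∈ S, LFun (B x.1) (edgePoint (j + 1) x.2 + ε) ≠ 0 ∧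
        LFun B₀ (edgePoint (j + 1) x.2 + ε) ≠ 0 ∧ LFun B₁ (edgePoint (j - 1) x.2 + ε) ≠ 0 := by
      rw [Filter.eventually_all_finset]
      intro x _
      exact ((Pool.Agent.Y149.LN.link hj hjd (a x.1) (b x.1) x.2 h₀ h₁ (hB x.1)).1).and
        ((Pool.Agent.Y149.LN.base hjd x.2 h₀).1.and
          (Pool.Agent.Y149.LN.base (by omega) x.2 h₁).1)
    filter_upwards [g1, g2, g3, (Pool.Agent.Y149.LN.square (by omega) h₂).1,
      Pool.Agent.Y149.LN.square_le (by omega) h₂ hη] with ε e1 e2 e3 e4 e5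
    exact ⟨e3, e4, e1, e2, e5⟩
  · have hsq : ∀ η : ℝ, 0 < η → ∃ᶠ ε : ℝ in 𝓝[>] 0, size (2 * j) 0 B₂ ε ≤ (N j : ℝ) ^ 2 + η :=
      fun η hη => (Pool.Agent.Y149.LN.square_le (by omega) h₂ hη).frequently
    have hmain := fun (S : Finset (ι × ℝ)) (hS : ∀ x ∈ S, x ∈ T) =>
      Pool.Agent.Y149.LN.main_order hj hjd hΔ hmod hne h₀ h₁ h₂ hB hsq hm₀ hm₁ hm S hS
    have hR : (Module.finrank ℚ K : ℝ) * (N j : ℝ) ^ 2 =
        ((Module.finrank ℚ K * N j ^ 2 : ℕ) : ℝ) := by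
      push_cast; rfl
    have c1 := Pool.Agent.Y149.LN.ncard_le (T := T) (g := fun x => m₀ x.2 + m₁ x.2 - m x)
      (R := Module.finrank ℚ K * N j ^ 2) fun S hS => by
        rw [← hR]
        exact (hmain S hS).1
    have c2 := Pool.Agent.Y149.LN.ncard_le (T := T) (g := fun x => m x - m₀ x.2 - m₁ x.2)
      (R := Module.finrank ℚ K * N j ^ 2) fun S hS => by
        rw [← hR]
        exact (hmain S hS).2
    refine ⟨(c1.1.union c2.1).subset fun x hx => ?_, ?_, ?_, fun r hr S hS => ?_⟩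
    · rcases lt_or_gt_of_ne hx.2 with h | h
      · exact Or.inl ⟨hx.1, by change 0 < m₀ x.2 + m₁ x.2 - m x; omega⟩
      · exact Or.inr ⟨hx.1, by change 0 < m x - m₀ x.2 - m₁ x.2; omega⟩
    · refine le_trans (Set.ncard_le_ncard (t := Prod.fst ''
        {x ∈ T | 0 < m₀ x.2 + m₁ x.2 - m x}) (fun i hi => ?_) (c1.1.image _)) ?_
      · obtain ⟨τ, h1, h2⟩ := hi
        exact ⟨(i, τ), ⟨h1, by change 0 < m₀ τ + m₁ τ - m (i, τ); omega⟩, rfl⟩
      · exact (Set.ncard_image_le c1.1).trans c1.2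
    · refine le_trans (Set.ncard_le_ncard (t := Prod.fst ''
        {x ∈ T | 0 < m x - m₀ x.2 - m₁ x.2}) (fun i hi => ?_) (c2.1.image _)) ?_
      · obtain ⟨τ, h1, h2⟩ := hi
        exact ⟨(i, τ), ⟨h1, by change 0 < m (i, τ) - m₀ τ - m₁ τ; omega⟩, rfl⟩
      · exact (Set.ncard_image_le c2.1).trans c2.2
    · have hlim := Pool.Agent.Y149.LN.ord_lim
        (Pool.Agent.Y149.LN.square (by omega) h₂).1 hr
      have hr' : ∀ η : ℝ, 0 < η → ∃ᶠ ε : ℝ in 𝓝[>] 0, size (2 * j) 0 B₂ ε ≤ (r : ℝ) + η := by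
        intro η hη
        have h3 : (-((-(r : ℤ) : ℤ) : ℝ)) < (r : ℝ) + η := by
          push_cast
          linarith
        exact ((hlim.eventually_lt_const h3).mono fun ε h4 => le_of_lt h4).frequently
      obtain ⟨k1, k2⟩ := Pool.Agent.Y149.LN.main_order hj hjd hΔ hmod hne h₀ h₁ h₂ hB hr'
        hm₀ hm₁ hm S hS
      constructor
      · have e1 : ∑ x ∈ S, (max ((m₀ x.2 + m₁ x.2 - m x : ℤ) : ℝ) 0) ^ 2 =
            ((∑ x ∈ S, (max (m₀ x.2 + m₁ x.2 - m x) 0) ^ 2 : ℤ) : ℝ) := by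
          push_cast
          rfl
        rw [e1] at k1
        exact_mod_cast k1
      · have e1 : ∑ x ∈ S, (max ((m x - m₀ x.2 - m₁ x.2 : ℤ) : ℝ) 0) ^ 2 =
            ((∑ x ∈ S, (max (m x - m₀ x.2 - m₁ x.2) 0) ^ 2 : ℤ) : ℝ) := by
          push_cast
          rfl
        rw [e1] at k2
        exact_mod_cast k2

end Pool.Agent.Results.MP_039d94_nt.EllipticProductsLine
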