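import Pool.Agent.Y770.NR.Final

/-!
# Relations between the boundary values of the L-functions of varieties are relations between the
L-functions

The functions `z ↦ L(Hⁱ(X), i/2 + 1 + z)`, `Re z > 0`, are considered for all projective varieties
`X` over all number fields.  No continuation is known or assumed.  At almost every point `iτ` of the
line `Re z = 0` they all have nonzero boundary values; the theorem says that for almost every `τ` these
complex numbers satisfy only those polynomial relations, among themselves and with the values at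
`iτ` of any countable set of analytic functions given in advance, that the functions themselves
satisfy near `iτ`, and that `L(Hⁱ(X), s)` continues holomorphically to a neighbourhood of the point
as soon as its boundary value is algebraic over the field generated by such values.

`IsEulerSystem`, `LFun` and `edgePoint` are defined in `Pool/Agent/TH958/BV/Defs.lean`.
-/

set_option autoImplicit false

namespace Pool.Agent.Results.MP_039d94_nt.NumericalRelations

open NumberField IsDedekindDomain Filter Topology MeasureTheory Polynomial Pool.Agent.TH958.BV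

/-- The functions `z ↦ L(Hⁱ(X), i/2 + 1 + z)` of all projective varieties `X` over all number fields
`F ⊂ ℂ`; `B` are the Euler factors of `L(Hⁱ(X), s)`. -/
def motivic : Set (ℂ → ℂ) :=
  {f | ∃ (F : Subfield ℂ) (_ : NumberField F) (n : ℕ) (X : Set (MvPolynomial (Fin n) (𝓞 F)))
    (d i N : ℕ) (B : HeightOneSpectrum (𝓞 F) → ℂ[X]), i ≤ 2 * d ∧ IsEulerSystem X d i N B ∧
    f = fun z => LFun B (edgePoint i 0 + z)}

/-- `f(z)` tends to `l` as `z` tends to `iτ` in any angle `|z - iτ| ≤ C Re z` in the half-plane
`Re z > 0`. -/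
def BoundaryValue (f : ℂ → ℂ) (τ : ℝ) (l : ℂ) : Prop :=
  ∀ C : ℝ, Tendsto f (𝓝[{z : ℂ | 0 < z.re ∧ ‖z - τ * Complex.I‖ ≤ C * z.re}] (τ * Complex.I)) (𝓝 l)

/-- The values at `iτ` of the functions in `A` that are analytic at `iτ`. -/
def values (A : Set (ℂ → ℂ)) (τ : ℝ) : Set ℂ :=
  {w : ℂ | ∃ g ∈ A, AnalyticAt ℂ g (τ * Complex.I) ∧ g (τ * Complex.I) = w}

/-- `f` continues holomorphically from the half-plane `Re z > 0` to a neighbourhood of `iτ`. -/
def Continues (f : ℂ → ℂ) (τ : ℝ) : Prop :=
  ∃ φ : ℂ → ℂ, AnalyticAt ℂ φ (τ * Complex.I) ∧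
    ∀ᶠ z in 𝓝 (τ * Complex.I : ℂ), 0 < z.re → f z = φ z

/-- **Numerical relations are functional relations.**  Let `A` be a countable set of functions.  For
almost every real `τ`:

* every `f ∈ motivic` has a boundary value different from zero at `iτ`;
* for all `f₁, …, f_m`, each in `motivic` or in `A` and analytic at `iτ`, with boundary values
  `l₁, …, l_m` at `iτ`, and all polynomials `P` with rational coefficients, if
  `P(l₁, …, l_m) = 0` then `P(f₁(z), …, f_m(z)) = 0` for all `z` near `iτ` with `Re z > 0`;
* for all `f ∈ motivic`, if the boundary value of `f` at `iτ` is algebraic over the field generated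
  over `ℚ` by the values at `iτ` of the functions in `A`, then `f` continues holomorphically to a
  neighbourhood of `iτ`. -/
theorem result (A : Set (ℂ → ℂ)) (hA : A.Countable) : ∀ᵐ τ : ℝ,
    (∀ f ∈ motivic, ∃ l : ℂ, l ≠ 0 ∧ BoundaryValue f τ l) ∧
    (∀ (m : ℕ) (f : Fin m → ℂ → ℂ) (l : Fin m → ℂ),
      (∀ k, f k ∈ motivic ∨ (f k ∈ A ∧ AnalyticAt ℂ (f k) (τ * Complex.I))) →
      (∀ k, BoundaryValue (f k) τ (l k)) →
      ∀ P : MvPolynomial (Fin m) ℚ, MvPolynomial.aeval l P = 0 →
        ∀ᶠ z in 𝓝 (τ * Complex.I : ℂ), 0 < z.re → MvPolynomial.aeval (fun k => f k z) P = 0) ∧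
    ∀ f ∈ motivic, ∀ l : ℂ, BoundaryValue f τ l →
      IsAlgebraic (IntermediateField.adjoin ℚ (values A τ)) l → Continues f τ := by
  have hm : motivic = Pool.Agent.Y770.NR.Mot := by
    ext f
    constructor
    · rintro ⟨F, hF, n, X, d, i, N, B, h⟩
      exact ⟨F, hF, n, X, d, i, N, B, h⟩
    · rintro ⟨F, hF, n, X, d, i, N, B, h⟩
      exact ⟨F, hF, n, X, d, i, N, B, h⟩
  rw [hm]
  exact Pool.Agent.Y770.NR.main hA

end Pool.Agent.Results.MP_039d94_nt.NumericalRelations
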